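import Mathlib

set_option autoImplicit false

/-! Northcott, uniform in the number field of bounded degree. -/

open Filter Topology NumberField

namespace Pool.Agent.Helper70.UNI

open Polynomial in
def StCnt : Prop := ∀ (D : ℕ) (B : ℝ), ∃ F : Finset ℤ[X], (∀ p ∈ F, p ≠ 0 ∧ p.natDegree ≤ D) ∧
  ∀ (K : Type) [Field K] [NumberField K], Module.finrank ℚ K ≤ D → ∀ z : K,
    Height.logHeight₁ z ≤ B → ∃ p ∈ F, aeval z p = 0

open Polynomial in
theorem cnt_fin (D : ℕ) (M : ℤ) :
    {q : ℤ[X] | q ≠ 0 ∧ q.natDegree ≤ D ∧ ∀ i, |q.coeff i| ≤ M}.Finite := by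
  have h1 : (Set.univ.pi fun _ : Fin (D + 1) => Set.Icc (-M) M).Finite :=
    Set.Finite.pi fun _ => Set.finite_Icc _ _
  refine Set.Finite.of_finite_image (f := fun (q : ℤ[X]) (i : Fin (D + 1)) => q.coeff i)
    (h1.subset ?_) ?_
  · rintro _ ⟨q, hq, rfl⟩
    intro i _
    exact abs_le.1 (hq.2.2 i)
  · intro p hp q hq hpq
    ext i
    by_cases hi : i ≤ D
    · exact congrFun hpq ⟨i, by omega⟩
    · rw [coeff_eq_zero_of_natDegree_lt (by have := hp.2.1; omega),
        coeff_eq_zero_of_natDegree_lt (by have := hq.2.1; omega)]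

theorem cnt_place (K : Type) [Field K] [NumberField K] (z : K) (B : ℝ)
    (h : Height.logHeight₁ z ≤ B) (v : InfinitePlace K) : v z ≤ Real.exp B := by
  rw [NumberField.logHeight₁_eq] at h
  have h1 : (0 : ℝ) ≤ ∑ᶠ v : FinitePlace K, Real.posLog (v z) :=
    finsum_nonneg fun _ => Real.posLog_nonneg
  have h2 : (v.mult : ℝ) * Real.posLog (v z) ≤ ∑ v : InfinitePlace K, v.mult * Real.posLog (v z) :=
    Finset.single_le_sum (f := fun v : InfinitePlace K => (v.mult : ℝ) * Real.posLog (v z))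
      (fun w _ => mul_nonneg (Nat.cast_nonneg _) Real.posLog_nonneg) (Finset.mem_univ v)
  have h3 : Real.posLog (v z) ≤ (v.mult : ℝ) * Real.posLog (v z) := by
    have : (1 : ℝ) ≤ v.mult := by exact_mod_cast v.mult_pos
    nlinarith [Real.posLog_nonneg (x := v z)]
  have h4 : Real.posLog (v z) ≤ B := by linarith
  rcases le_or_gt (v z) 0 with h5 | h5
  · exact h5.trans (Real.exp_pos _).le
  · rw [← Real.log_le_iff_le_exp h5]
    exact (le_max_right _ _).trans h4

open Polynomial in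
theorem cnt_all : StCnt := by
  intro D B
  obtain ⟨N, hN⟩ : ∃ N : ℕ, N = ⌊Real.exp B⌋₊ := ⟨_, rfl⟩
  obtain ⟨R, hR⟩ : ∃ R : ℝ, R = max (Real.exp B * Real.exp B) 1 ^ D * D.choose (D / 2) := ⟨_, rfl⟩
  have hfin := Set.Finite.image2 (fun (n : ℕ) (q : ℤ[X]) => q.comp (C (n : ℤ) * X))
    (Set.finite_Icc 1 N) (cnt_fin D ⌊R⌋)
  refine ⟨hfin.toFinset, ?_, ?_⟩
  · intro p hp
    rw [Set.Finite.mem_toFinset] at hp
    obtain ⟨n, hn, q, hq, rfl⟩ := hp
    have hn0 : (n : ℤ) ≠ 0 := by
      have := hn.1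
      exact_mod_cast (by omega : n ≠ 0)
    constructor
    · intro h
      have h1 := congrArg (fun p : ℤ[X] => p.coeff q.natDegree) h
      simp only [comp_C_mul_X_coeff, coeff_zero, coeff_natDegree] at h1
      rcases mul_eq_zero.1 h1 with h2 | h2
      · exact hq.1 (leadingCoeff_eq_zero.1 h2)
      · exact pow_ne_zero _ hn0 h2
    · refine natDegree_comp_le.trans ?_
      rw [natDegree_C_mul_X _ hn0, mul_one]
      exact hq.2.1
  · intro K _ _ hK z hz
    have hmul : Height.mulHeight₁ z ≤ Real.exp B := by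
      have h1 : Real.log (Height.mulHeight₁ z) ≤ B := hz
      have h2 : 0 < Height.mulHeight₁ z := Height.mulHeight₁_pos z
      exact (Real.log_le_iff_le_exp h2).1 h1
    obtain ⟨n, hn0, hn1, hn⟩ := NumberField.exists_nat_le_mulHeight₁ z
    have hnE : (n : ℝ) ≤ Real.exp B := hn1.trans hmul
    have hbd : ∀ φ : K →+* ℂ, ‖φ ((n : K) * z)‖ ≤ Real.exp B * Real.exp B := by
      intro φ
      rw [map_mul, norm_mul, map_natCast]
      have h1 : ‖φ z‖ ≤ Real.exp B := cnt_place K z B hz (InfinitePlace.mk φ)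
      have h2 : ‖(n : ℂ)‖ = n := by simp
      rw [h2]
      exact mul_le_mul hnE h1 (norm_nonneg _) (Real.exp_pos _).le
    have hq : minpoly ℚ ((n : K) * z) = (minpoly ℤ ((n : K) * z)).map (algebraMap ℤ ℚ) :=
      minpoly.isIntegrallyClosed_eq_field_fractions' ℚ hn
    refine ⟨(minpoly ℤ ((n : K) * z)).comp (C (n : ℤ) * X), ?_, ?_⟩
    · rw [Set.Finite.mem_toFinset]
      refine ⟨n, ⟨by omega, by rw [hN]; exact Nat.le_floor hnE⟩, minpoly ℤ ((n : K) * z),
        ⟨(minpoly.monic hn).ne_zero, ?_, ?_⟩, rfl⟩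
      · have h1 : (minpoly ℚ ((n : K) * z)).natDegree ≤ Module.finrank ℚ K :=
          minpoly.natDegree_le _
        rw [hq, (minpoly.monic hn).natDegree_map] at h1
        exact h1.trans hK
      · intro i
        have h1 := NumberField.Embeddings.coeff_bdd_of_norm_le (A := ℂ) hbd i
        rw [hq, coeff_map] at h1
        have h2 : ‖(algebraMap ℤ ℚ) ((minpoly ℤ ((n : K) * z)).coeff i)‖ =
            ((|(minpoly ℤ ((n : K) * z)).coeff i| : ℤ) : ℝ) := by
          rw [eq_intCast, Int.norm_cast_rat, Int.norm_eq_abs, Int.cast_abs]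
        rw [h2] at h1
        rw [Int.le_floor]
        refine h1.trans ?_
        rw [hR]
        have h3 : (1 : ℝ) ≤ max (Real.exp B * Real.exp B) 1 := le_max_right _ _
        refine mul_le_mul (pow_le_pow_right₀ h3 hK) ?_ (by positivity) (by positivity)
        have h4 : (Module.finrank ℚ K).choose (Module.finrank ℚ K / 2) ≤ D.choose (D / 2) :=
          (Nat.choose_le_choose _ hK).trans (Nat.choose_le_middle _ _)
        exact_mod_cast h4
    · rw [aeval_comp]
      have h1 : aeval z (C (n : ℤ) * X : ℤ[X]) = (n : K) * z := by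
        simp
      rw [h1]
      exact minpoly.aeval _ _

end Pool.Agent.Helper70.UNI
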