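import Pool.Agent.Helper9.UNI.Sheet
import Pool.Agent.Helper70.UNI.CNTcore

set_option autoImplicit false

namespace Pool.Agent.Helper70.UNI

theorem CNT : Pool.Agent.Helper9.UNI.ST_CNT := cnt_all

end Pool.Agent.Helper70.UNI
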